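import Mathlib

/-!
# Shortest routes to simplicity without swaps of two simple edges

For every loopy multigraph with a graphical degree sequence there is a shortest sequence of double
edge swaps leading to a simple graph in which no swap removes two simple edges.

Proof.  An exchange argument: if `G` can be turned into `H` by `k` swaps and the edge `e` has
larger multiplicity in `G` than in `H`, then `G` can be turned into `H` by `k` swaps the first of
which removes `e`.  If `G` is not simple and `H` is simple, this is applied to a loop or a multiple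
edge `e` of `G`.
-/

set_option autoImplicit false

namespace Pool.Agent.Results.MP_742338_co.NoSimpleSwaps

variable {V : Type*} [DecidableEq V]

/-- The degree of `v` in the loopy multigraph `G` (the multiset of its edges): the number of edges
at `v`, where loops are counted twice. -/
def deg (G : Multiset (Sym2 V)) (v : V) : ℕ := G.countP (fun e => v ∈ e) + G.count s(v, v)

/-- The edge `e` is simple in `G`: it is not a loop and it has multiplicity one. -/
def SimpleEdge (G : Multiset (Sym2 V)) (e : Sym2 V) : Prop := ¬ e.IsDiag ∧ G.count e = 1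

/-- All edges are simple. -/
def IsSimple (G : Multiset (Sym2 V)) : Prop := ∀ e ∈ G, SimpleEdge G e

/-- `G'` arises from `G` by the double edge swap `(v₁, v₂)(v₃, v₄)`. -/
def Swap (G G' : Multiset (Sym2 V)) (v₁ v₂ v₃ v₄ : V) : Prop :=
  ∃ R : Multiset (Sym2 V), G = {s(v₁, v₂), s(v₃, v₄)} + R ∧ G' = {s(v₂, v₃), s(v₄, v₁)} + R

/-- `g 0, g 1, …, g k` is a route of length `k` from `G` to a simple graph, the step from `g i` to
`g (i + 1)`, for `i < k`, being the double edge swap `(w i 0, w i 1)(w i 2, w i 3)`. -/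
def IsRoute (G : Multiset (Sym2 V)) (k : ℕ) (g : ℕ → Multiset (Sym2 V)) (w : Fin k → Fin 4 → V) :
    Prop :=
  g 0 = G ∧ (∀ i : Fin k, Swap (g i) (g (i + 1)) (w i 0) (w i 1) (w i 2) (w i 3)) ∧
    IsSimple (g k)

/-- reachable by `k` swaps -/
def Steps : ℕ → Multiset (Sym2 V) → Multiset (Sym2 V) → Prop
  | 0, G, H => G = H
  | k + 1, G, H => ∃ G₁ v₁ v₂ v₃ v₄, Swap G G₁ v₁ v₂ v₃ v₄ ∧ Steps k G₁ H

lemma front (k : ℕ) : ∀ (G H : Multiset (Sym2 V)) (e : Sym2 V), Steps (k + 1) G H →
    H.count e < G.count e → ∃ G₁ v₁ v₂ v₃ v₄, Swap G G₁ v₁ v₂ v₃ v₄ ∧ e = s(v₁, v₂) ∧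
      Steps k G₁ H := by
  induction k with
  | zero =>
    intro G H e hs hc
    obtain ⟨G₁, v₁, v₂, v₃, v₄, hsw, h1⟩ := hs
    have h1' : G₁ = H := h1
    subst h1'
    obtain ⟨R, rfl, rfl⟩ := hsw
    by_cases h12 : e = s(v₁, v₂)
    · exact ⟨_, v₁, v₂, v₃, v₄, ⟨R, rfl, rfl⟩, h12, h1⟩
    by_cases h34 : e = s(v₃, v₄)
    · refine ⟨_, v₃, v₄, v₁, v₂, ⟨R, ?_, ?_⟩, h34, h1⟩
      · rw [Multiset.pair_comm]
      · rw [Multiset.pair_comm]
    exfalso
    have : ({s(v₁, v₂), s(v₃, v₄)} + R).count e ≤ ({s(v₂, v₃), s(v₄, v₁)} + R).count e := by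
      rw [Multiset.count_add, Multiset.count_add]
      have : Multiset.count e {s(v₁, v₂), s(v₃, v₄)} = 0 := by
        rw [Multiset.count_eq_zero]
        simp [h12, h34]
      omega
    omega
  | succ k ih =>
    intro G H e hs hc
    obtain ⟨G₁, v₁, v₂, v₃, v₄, hsw, h1⟩ := hs
    obtain ⟨R, rfl, rfl⟩ := hsw
    by_cases h12 : e = s(v₁, v₂)
    · exact ⟨_, v₁, v₂, v₃, v₄, ⟨R, rfl, rfl⟩, h12, h1⟩
    by_cases h34 : e = s(v₃, v₄)
    · refine ⟨_, v₃, v₄, v₁, v₂, ⟨R, ?_, ?_⟩, h34, h1⟩
      · rw [Multiset.pair_comm]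
      · rw [Multiset.pair_comm]
    have hz : Multiset.count e {s(v₁, v₂), s(v₃, v₄)} = 0 := by
      rw [Multiset.count_eq_zero]
      simp [h12, h34]
    have hc1 : H.count e < ({s(v₂, v₃), s(v₄, v₁)} + R).count e := by
      rw [Multiset.count_add] at hc ⊢
      omega
    obtain ⟨G₂, x, y, z, w, ⟨R', hG1, rfl⟩, he, h2⟩ := ih _ _ e h1 hc1
    have heR : e ∈ R := by
      rw [← Multiset.count_pos]
      rw [Multiset.count_add] at hc
      omega
    obtain ⟨R'', rfl⟩ := Multiset.exists_cons_of_mem heR
    have hf : ({s(v₂, v₃), s(v₄, v₁)} : Multiset (Sym2 V)) + R'' = s(z, w) ::ₘ R' := by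
      have : e ::ₘ (({s(v₂, v₃), s(v₄, v₁)} : Multiset (Sym2 V)) + R'') =
          e ::ₘ (s(z, w) ::ₘ R') := by
        rw [← Multiset.add_cons, hG1, ← he]
        simp only [Multiset.insert_eq_cons, Multiset.cons_add, Multiset.singleton_add]
      exact (Multiset.cons_inj_right e).mp this
    by_cases hfR : s(z, w) ∈ R''
    · obtain ⟨R3, rfl⟩ := Multiset.exists_cons_of_mem hfR
      have hR' : R' = {s(v₂, v₃), s(v₄, v₁)} + R3 := by
        have : s(z, w) ::ₘ R' = s(z, w) ::ₘ ({s(v₂, v₃), s(v₄, v₁)} + R3) := by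
          rw [← hf, Multiset.add_cons]
        exact (Multiset.cons_inj_right _).mp this
      refine ⟨{s(y, z), s(w, x)} + ({s(v₁, v₂), s(v₃, v₄)} + R3), x, y, z, w,
        ⟨{s(v₁, v₂), s(v₃, v₄)} + R3, ?_, rfl⟩, he, ?_⟩
      · rw [he]
        simp only [Multiset.insert_eq_cons, ← Multiset.singleton_add]
        abel
      · refine ⟨_, v₁, v₂, v₃, v₄, ⟨{s(y, z), s(w, x)} + R3, ?_, rfl⟩, ?_⟩
        · simp only [Multiset.insert_eq_cons, ← Multiset.singleton_add]
          abel
        · have : ({s(v₂, v₃), s(v₄, v₁)} + ({s(y, z), s(w, x)} + R3) : Multiset (Sym2 V)) =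
              {s(y, z), s(w, x)} + R' := by
            rw [hR']
            simp only [Multiset.insert_eq_cons, ← Multiset.singleton_add]
            abel
          rw [this]
          exact h2
    · have hfm : s(z, w) ∈ ({s(v₂, v₃), s(v₄, v₁)} : Multiset (Sym2 V)) + R'' := by
        rw [hf]; exact Multiset.mem_cons_self _ _
      have hfm2 : s(z, w) = s(v₂, v₃) ∨ s(z, w) = s(v₄, v₁) := by
        rcases Multiset.mem_add.mp hfm with h | h
        · simpa using h
        · exact absurd h hfR
      rcases hfm2 with hf1 | hf1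
      · have hR' : R' = s(v₄, v₁) ::ₘ R'' := by
          have : s(z, w) ::ₘ R' = s(z, w) ::ₘ (s(v₄, v₁) ::ₘ R'') := by
            rw [← hf, hf1]
            simp only [Multiset.insert_eq_cons, Multiset.cons_add, Multiset.singleton_add]
          exact (Multiset.cons_inj_right _).mp this
        rcases Sym2.eq_iff.mp hf1 with ⟨rfl, rfl⟩ | ⟨rfl, rfl⟩
        · -- `z = v₂`, `w = v₃`
          refine ⟨{s(y, z), s(v₁, x)} + (s(w, v₄) ::ₘ R''), x, y, z, v₁,
            ⟨s(w, v₄) ::ₘ R'', ?_, rfl⟩, he, ?_⟩
          · rw [he, Sym2.eq_swap (a := v₁) (b := z)]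
            simp only [Multiset.insert_eq_cons, ← Multiset.singleton_add]
            abel
          · refine ⟨_, x, v₁, v₄, w, ⟨s(y, z) ::ₘ R'', ?_, rfl⟩, ?_⟩
            · rw [Sym2.eq_swap (a := x) (b := v₁), Sym2.eq_swap (a := v₄) (b := w)]
              simp only [Multiset.insert_eq_cons, ← Multiset.singleton_add]
              abel
            · have : ({s(v₁, v₄), s(w, x)} + s(y, z) ::ₘ R'' : Multiset (Sym2 V)) =
                  {s(y, z), s(w, x)} + R' := by
                rw [hR', Sym2.eq_swap (a := v₁) (b := v₄)]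
                simp only [Multiset.insert_eq_cons, ← Multiset.singleton_add]
                abel
              rw [this]
              exact h2
        · -- `z = v₃`, `w = v₂`
          refine ⟨{s(x, w), s(v₁, y)} + (s(z, v₄) ::ₘ R''), y, x, w, v₁,
            ⟨s(z, v₄) ::ₘ R'', ?_, rfl⟩, he.trans Sym2.eq_swap, ?_⟩
          · rw [he, Sym2.eq_swap (a := v₁) (b := w), Sym2.eq_swap (a := x) (b := y)]
            simp only [Multiset.insert_eq_cons, ← Multiset.singleton_add]
            abel
          · refine ⟨_, y, v₁, v₄, z, ⟨s(x, w) ::ₘ R'', ?_, rfl⟩, ?_⟩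
            · rw [Sym2.eq_swap (a := y) (b := v₁), Sym2.eq_swap (a := v₄) (b := z)]
              simp only [Multiset.insert_eq_cons, ← Multiset.singleton_add]
              abel
            · have : ({s(v₁, v₄), s(z, y)} + s(x, w) ::ₘ R'' : Multiset (Sym2 V)) =
                  {s(y, z), s(w, x)} + R' := by
                rw [hR', Sym2.eq_swap (a := v₁) (b := v₄), Sym2.eq_swap (a := z) (b := y),
                  Sym2.eq_swap (a := x) (b := w)]
                simp only [Multiset.insert_eq_cons, ← Multiset.singleton_add]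
                abel
              rw [this]
              exact h2
      · have hR' : R' = s(v₂, v₃) ::ₘ R'' := by
          have : s(z, w) ::ₘ R' = s(z, w) ::ₘ (s(v₂, v₃) ::ₘ R'') := by
            rw [← hf, hf1]
            simp only [Multiset.insert_eq_cons, ← Multiset.singleton_add]
            abel
          exact (Multiset.cons_inj_right _).mp this
        rcases Sym2.eq_iff.mp hf1 with ⟨rfl, rfl⟩ | ⟨rfl, rfl⟩
        · -- `z = v₄`, `w = v₁`
          refine ⟨{s(y, z), s(v₃, x)} + (s(w, v₂) ::ₘ R''), x, y, z, v₃,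
            ⟨s(w, v₂) ::ₘ R'', ?_, rfl⟩, he, ?_⟩
          · rw [he, Sym2.eq_swap (a := v₃) (b := z)]
            simp only [Multiset.insert_eq_cons, ← Multiset.singleton_add]
            abel
          · refine ⟨_, x, v₃, v₂, w, ⟨s(y, z) ::ₘ R'', ?_, rfl⟩, ?_⟩
            · rw [Sym2.eq_swap (a := x) (b := v₃), Sym2.eq_swap (a := v₂) (b := w)]
              simp only [Multiset.insert_eq_cons, ← Multiset.singleton_add]
              abel
            · have : ({s(v₃, v₂), s(w, x)} + s(y, z) ::ₘ R'' : Multiset (Sym2 V)) =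
                  {s(y, z), s(w, x)} + R' := by
                rw [hR', Sym2.eq_swap (a := v₃) (b := v₂)]
                simp only [Multiset.insert_eq_cons, ← Multiset.singleton_add]
                abel
              rw [this]
              exact h2
        · -- `z = v₁`, `w = v₄`
          refine ⟨{s(x, w), s(v₃, y)} + (s(z, v₂) ::ₘ R''), y, x, w, v₃,
            ⟨s(z, v₂) ::ₘ R'', ?_, rfl⟩, he.trans Sym2.eq_swap, ?_⟩
          · rw [he, Sym2.eq_swap (a := v₃) (b := w), Sym2.eq_swap (a := x) (b := y)]
            simp only [Multiset.insert_eq_cons, ← Multiset.singleton_add]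
            abel
          · refine ⟨_, y, v₃, v₂, z, ⟨s(x, w) ::ₘ R'', ?_, rfl⟩, ?_⟩
            · rw [Sym2.eq_swap (a := y) (b := v₃), Sym2.eq_swap (a := v₂) (b := z)]
              simp only [Multiset.insert_eq_cons, ← Multiset.singleton_add]
              abel
            · have : ({s(v₃, v₂), s(z, y)} + s(x, w) ::ₘ R'' : Multiset (Sym2 V)) =
                  {s(y, z), s(w, x)} + R' := by
                rw [hR', Sym2.eq_swap (a := v₃) (b := v₂), Sym2.eq_swap (a := z) (b := y),
                  Sym2.eq_swap (a := x) (b := w)]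
                simp only [Multiset.insert_eq_cons, ← Multiset.singleton_add]
                abel
              rw [this]
              exact h2

/-! ### Any two loopy multigraphs with the same degrees are joined by swaps -/

/-- the multiset of the half-edges -/
def stubs (G : Multiset (Sym2 V)) : Multiset V := (G.map Sym2.toMultiset).sum

lemma stubs_cons (a b : V) (G : Multiset (Sym2 V)) :
    stubs (s(a, b) ::ₘ G) = a ::ₘ b ::ₘ stubs G := by
  unfold stubs
  rw [Multiset.map_cons, Multiset.sum_cons]
  have : Sym2.toMultiset s(a, b) = {a, b} := rfl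
  rw [this]
  simp only [Multiset.insert_eq_cons, Multiset.cons_add, Multiset.singleton_add]

lemma count_stubs (G : Multiset (Sym2 V)) (v : V) : (stubs G).count v = deg G v := by
  induction G using Multiset.induction with
  | empty => simp [stubs, deg]
  | cons e G ih =>
    induction e using Sym2.ind with
    | _ a b =>
      rw [stubs_cons, Multiset.count_cons, Multiset.count_cons, ih]
      unfold deg
      rw [Multiset.countP_cons, Multiset.count_cons]
      by_cases h1 : v = a
      · by_cases h2 : v = b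
        · subst h1; subst h2; simp; omega
        · subst h1
          have : ¬ s(v, v) = s(v, b) := by
            intro h; rcases Sym2.eq_iff.mp h with ⟨_, h⟩ | ⟨h, _⟩ <;> exact h2 h
          simp [h2, this]; omega
      · by_cases h2 : v = b
        · subst h2
          have : ¬ s(v, v) = s(a, v) := by
            intro h; rcases Sym2.eq_iff.mp h with ⟨h, _⟩ | ⟨_, h⟩ <;> exact h1 h
          simp [h1, this]; omega
        · have : ¬ s(v, v) = s(a, b) := by
            intro h; rcases Sym2.eq_iff.mp h with ⟨h, _⟩ | ⟨_, h⟩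
            · exact h1 h
            · exact h1 h
          simp [h1, h2, this]

lemma steps_cons (e : Sym2 V) (k : ℕ) : ∀ G H : Multiset (Sym2 V), Steps k G H →
    Steps k (e ::ₘ G) (e ::ₘ H) := by
  induction k with
  | zero => intro G H h; exact congrArg _ h
  | succ k ih =>
    intro G H h
    obtain ⟨G₁, v₁, v₂, v₃, v₄, ⟨R, rfl, rfl⟩, h1⟩ := h
    refine ⟨_, v₁, v₂, v₃, v₄, ⟨e ::ₘ R, ?_, ?_⟩, ih _ _ h1⟩
    · rw [Multiset.add_cons]
    · rw [Multiset.add_cons]

lemma mem_stubs {G : Multiset (Sym2 V)} {v : V} (h : v ∈ stubs G) : ∃ w, s(v, w) ∈ G := by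
  unfold stubs at h
  induction G using Multiset.induction with
  | empty => simp at h
  | cons e G ih =>
    rw [Multiset.map_cons, Multiset.sum_cons, Multiset.mem_add] at h
    rcases h with h | h
    · induction e using Sym2.ind with
      | _ a b =>
        have h' : v ∈ ({a, b} : Multiset V) := h
        simp only [Multiset.insert_eq_cons, Multiset.mem_cons, Multiset.mem_singleton] at h'
        rcases h' with rfl | rfl
        · exact ⟨b, Multiset.mem_cons_self _ _⟩
        · exact ⟨a, by rw [Sym2.eq_swap]; exact Multiset.mem_cons_self _ _⟩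
    · obtain ⟨w, hw⟩ := ih h
      exact ⟨w, Multiset.mem_cons_of_mem hw⟩

lemma conn (n : ℕ) : ∀ G H : Multiset (Sym2 V), G.card = n → stubs G = stubs H →
    ∃ k, Steps k G H := by
  induction n with
  | zero =>
    intro G H hn hst
    rw [Multiset.card_eq_zero] at hn
    subst hn
    rcases Multiset.empty_or_exists_mem H with rfl | ⟨e, he⟩
    · exact ⟨0, rfl⟩
    · exfalso
      obtain ⟨H', rfl⟩ := Multiset.exists_cons_of_mem he
      induction e using Sym2.ind with
      | _ a b =>
        rw [stubs_cons] at hst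
        simp [stubs] at hst
  | succ n ih =>
    intro G H hn hst
    obtain ⟨e0, G0, hG0⟩ : ∃ e0 G0, G = e0 ::ₘ G0 := by
      have : 0 < G.card := by omega
      obtain ⟨e, he⟩ := Multiset.card_pos_iff_exists_mem.mp this
      obtain ⟨G0, h⟩ := Multiset.exists_cons_of_mem he
      exact ⟨e, G0, h⟩
    obtain ⟨e1, H', rfl⟩ : ∃ e1 H', H = e1 ::ₘ H' := by
      rcases Multiset.empty_or_exists_mem H with rfl | ⟨e, he⟩
      · exfalso
        subst hG0
        induction e0 using Sym2.ind with
        | _ a b =>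
          rw [stubs_cons] at hst
          simp [stubs] at hst
      · obtain ⟨G0, h⟩ := Multiset.exists_cons_of_mem he
        exact ⟨e, G0, h⟩
    clear hG0
    induction e1 using Sym2.ind with
    | _ a b =>
      rw [stubs_cons] at hst
      obtain ⟨c, hc⟩ := mem_stubs (G := G) (v := a) (by rw [hst]; exact Multiset.mem_cons_self _ _)
      obtain ⟨G1, rfl⟩ := Multiset.exists_cons_of_mem hc
      rw [stubs_cons] at hst
      have hst1 : c ::ₘ stubs G1 = b ::ₘ stubs H' := (Multiset.cons_inj_right _).mp hst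
      rw [Multiset.card_cons] at hn
      by_cases hcb : c = b
      · subst hcb
        obtain ⟨k, hk⟩ := ih G1 H' (by omega) ((Multiset.cons_inj_right _).mp hst1)
        exact ⟨k, steps_cons _ k _ _ hk⟩
      · have hb : b ∈ stubs G1 := by
          have : b ∈ c ::ₘ stubs G1 := by rw [hst1]; exact Multiset.mem_cons_self _ _
          rcases Multiset.mem_cons.mp this with h | h
          · exact absurd h.symm hcb
          · exact h
        obtain ⟨d, hd⟩ := mem_stubs hb
        obtain ⟨G2, rfl⟩ := Multiset.exists_cons_of_mem hd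
        rw [stubs_cons] at hst1
        have hst2 : stubs (s(c, d) ::ₘ G2) = stubs H' := by
          rw [stubs_cons]
          have : b ::ₘ (c ::ₘ d ::ₘ stubs G2) = b ::ₘ stubs H' := by
            rw [← hst1, Multiset.cons_swap]
          exact (Multiset.cons_inj_right _).mp this
        rw [Multiset.card_cons] at hn
        obtain ⟨k, hk⟩ := ih (s(c, d) ::ₘ G2) H' (by rw [Multiset.card_cons]; omega) hst2
        refine ⟨k + 1, _, c, a, b, d, ⟨G2, ?_, rfl⟩, ?_⟩
        · rw [Sym2.eq_swap (a := c) (b := a)]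
          simp only [Multiset.insert_eq_cons, Multiset.cons_add, Multiset.singleton_add]
        · have : ({s(a, b), s(d, c)} + G2 : Multiset (Sym2 V)) = s(a, b) ::ₘ (s(c, d) ::ₘ G2) := by
            rw [Sym2.eq_swap (a := d) (b := c)]
            simp only [Multiset.insert_eq_cons, Multiset.cons_add, Multiset.singleton_add]
          rw [this]
          exact steps_cons _ k _ _ hk

/-! ### The result -/

/-- `k` is the length of a route from `G` to a simple graph -/
def Reach (G : Multiset (Sym2 V)) (k : ℕ) : Prop := ∃ H, IsSimple H ∧ Steps k G H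

lemma reach_of_route (k : ℕ) : ∀ (G : Multiset (Sym2 V)) (g : ℕ → Multiset (Sym2 V))
    (w : Fin k → Fin 4 → V), IsRoute G k g w → Reach G k := by
  induction k with
  | zero =>
    intro G g w h
    exact ⟨g 0, h.2.2, h.1.symm⟩
  | succ k ih =>
    intro G g w h
    obtain ⟨H, hH, hs⟩ := ih (g 1) (fun i => g (i + 1)) (fun i => w i.succ)
      ⟨rfl, fun i => h.2.1 i.succ, h.2.2⟩
    refine ⟨H, hH, g 1, w 0 0, w 0 1, w 0 2, w 0 3, ?_, hs⟩
    have := h.2.1 0
    rw [show g ((0 : Fin (k + 1)) : ℕ) = G from h.1] at this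
    exact this

lemma main (k : ℕ) : ∀ G : Multiset (Sym2 V), Reach G k → (∀ j, Reach G j → k ≤ j) →
    ∃ (g : ℕ → Multiset (Sym2 V)) (w : Fin k → Fin 4 → V), IsRoute G k g w ∧
      ∀ i : Fin k, ¬ (SimpleEdge (g i) s(w i 0, w i 1) ∧
        SimpleEdge (g i) s(w i 2, w i 3)) := by
  induction k with
  | zero =>
    intro G hr hmin
    obtain ⟨H, hH, hs⟩ := hr
    have hs' : G = H := hs
    subst hs'
    exact ⟨fun _ => G, fun i => i.elim0, ⟨rfl, fun i => i.elim0, hH⟩, fun i => i.elim0⟩
  | succ k ih =>
    intro G hr hmin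
    obtain ⟨H, hH, hs⟩ := hr
    have hG : ¬ IsSimple G := by
      intro h
      have := hmin 0 ⟨G, h, rfl⟩
      omega
    unfold IsSimple at hG
    push Not at hG
    obtain ⟨e, he, hns⟩ := hG
    have hc : H.count e < G.count e := by
      by_cases heH : e ∈ H
      · have h1 := hH e heH
        have h2 : 1 ≤ G.count e := Multiset.one_le_count_iff_mem.mpr he
        have h3 : G.count e ≠ 1 := fun h => hns ⟨h1.1, h⟩
        rw [h1.2]
        omega
      · rw [Multiset.count_eq_zero.mpr heH]
        exact Multiset.count_pos.mpr he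
    obtain ⟨G₁, v₁, v₂, v₃, v₄, hsw, hev, hs1⟩ := front k G H e hs hc
    obtain ⟨g, w, ⟨g0, g1, g2⟩, hw⟩ := ih G₁ ⟨H, hH, hs1⟩ (by
      intro j hj
      obtain ⟨H', hH', hs'⟩ := hj
      have := hmin (j + 1) ⟨H', hH', G₁, v₁, v₂, v₃, v₄, hsw, hs'⟩
      omega)
    refine ⟨fun i => Nat.casesOn i G g, Fin.cons ![v₁, v₂, v₃, v₄] w, ⟨rfl, ?_, g2⟩, ?_⟩
    · intro i
      induction i using Fin.cases with
      | zero =>
        show Swap G (g 0) v₁ v₂ v₃ v₄
        rw [g0]
        exact hsw
      | succ i => exact g1 i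
    · intro i
      induction i using Fin.cases with
      | zero =>
        show ¬ (SimpleEdge G s(v₁, v₂) ∧ SimpleEdge G s(v₃, v₄))
        rintro ⟨h1, -⟩
        rw [← hev] at h1
        exact hns h1
      | succ i => exact hw i

/-- Let `G` be a loopy multigraph whose degree sequence is graphical.  Then there is a shortest
route to simplicity from `G` in which no swap removes two simple edges. -/
theorem result (V : Type) [DecidableEq V] (G : Multiset (Sym2 V))
    (hG : ∃ H : Multiset (Sym2 V), IsSimple H ∧ ∀ v, deg H v = deg G v) :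
    ∃ (k : ℕ) (g : ℕ → Multiset (Sym2 V)) (w : Fin k → Fin 4 → V), IsRoute G k g w ∧
      (∀ (k' : ℕ) (g' : ℕ → Multiset (Sym2 V)) (w' : Fin k' → Fin 4 → V),
        IsRoute G k' g' w' → k ≤ k') ∧
      ∀ i : Fin k, ¬ (SimpleEdge (g i) s(w i 0, w i 1) ∧
        SimpleEdge (g i) s(w i 2, w i 3)) := by
  classical
  obtain ⟨H, hH, hd⟩ := hG
  have hst : stubs G = stubs H := by
    ext v
    rw [count_stubs, count_stubs, hd]
  obtain ⟨k0, hk0⟩ := conn _ G H rfl hst
  have hex : ∃ k, Reach G k := ⟨k0, H, hH, hk0⟩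
  obtain ⟨g, w, h1, h2⟩ := main (Nat.find hex) G (Nat.find_spec hex)
    (fun j hj => Nat.find_min' hex hj)
  exact ⟨Nat.find hex, g, w, h1, fun k' g' w' h' => Nat.find_min' hex (reach_of_route k' G g' w' h'),
    h2⟩

end Pool.Agent.Results.MP_742338_co.NoSimpleSwaps
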